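import Pool.Agent.Helper26.AF.Goals2

/-!
Project AF (MP_af6c86_pr), packet SUB: subdivision engine.
-/

namespace Pool.Agent.Helper87.AF

open Finset Pool.Agent.Helper26.AF

/-- The new vertex is `Fin.last N`. -/
def eN (X : Type) (N : ℕ) : (X ⊕ Fin N × Bool) ⊕ Bool ≃ X ⊕ Fin (N + 1) × Bool where
  toFun
    | Sum.inl (Sum.inl x) => Sum.inl x
    | Sum.inl (Sum.inr (i, b)) => Sum.inr (i.castSucc, b)
    | Sum.inr b => Sum.inr (Fin.last N, b)
  invFun
    | Sum.inl x => Sum.inl (Sum.inl x)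
    | Sum.inr (i, b) => Fin.lastCases (motive := fun _ => (X ⊕ Fin N × Bool) ⊕ Bool) (Sum.inr b)
        (fun j => Sum.inl (Sum.inr (j, b))) i
  left_inv := by rintro ((x | ⟨i, b⟩) | b) <;> simp
  right_inv := by
    rintro (x | ⟨i, b⟩)
    · rfl
    · refine Fin.lastCases ?_ (fun j => ?_) i <;> simp

/-- old darts -/
def emb (X : Type) (N : ℕ) (d : X ⊕ Fin N × Bool) : X ⊕ Fin (N + 1) × Bool := eN X N (Sum.inl d)

/-- new darts -/
def nw (X : Type) (N : ℕ) (b : Bool) : X ⊕ Fin (N + 1) × Bool := Sum.inr (Fin.last N, b)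

lemma emb_inl {X : Type} {N : ℕ} (x : X) : emb X N (Sum.inl x) = Sum.inl x := rfl

lemma emb_inr {X : Type} {N : ℕ} (i : Fin N) (b : Bool) :
    emb X N (Sum.inr (i, b)) = Sum.inr (i.castSucc, b) := rfl

lemma emb_inj {X : Type} {N : ℕ} : Function.Injective (emb X N) := fun a b h => by
  have := (eN X N).injective h
  exact Sum.inl_injective this

lemma emb_isX {X : Type} {N : ℕ} (d : X ⊕ Fin N × Bool) :
    (∃ y, emb X N d = Sum.inl y) ↔ ∃ y, d = Sum.inl y := by
  rcases d with x | ⟨i, b⟩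
  · simp [emb_inl]
  · simp [emb_inr]

lemma nw_isX {X : Type} {N : ℕ} (b : Bool) : ¬ ∃ y, nw X N b = Sum.inl y := by
  simp [nw]

lemma sW_emb {X : Type} {N : ℕ} (d : X ⊕ Fin N × Bool) :
    sW X (Fin (N + 1)) (emb X N d) = emb X N (sW X (Fin N) d) := by
  rcases d with x | ⟨i, b⟩
  · simp [emb_inl, sW]
  · simp [emb_inr, sW]

lemma sW_nw {X : Type} {N : ℕ} (b : Bool) :
    sW X (Fin (N + 1)) (nw X N b) = nw X N (!b) := by
  cases b <;> simp [nw, sW]

/-- insertion, in the new labelling -/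
structure Ins {X : Type} {N : ℕ} (τ : Equiv.Perm (X ⊕ Fin N × Bool)) (h : X ⊕ Fin N × Bool)
    (τ' : Equiv.Perm (X ⊕ Fin (N + 1) × Bool)) : Prop where
  a : τ' (nw X N false) = emb X N h
  b : τ' (nw X N true) = emb X N (τ h)
  c : τ' (emb X N h) = nw X N false
  d : τ' (emb X N (τ h)) = nw X N true
  e : ∀ x, x ≠ h → x ≠ τ h → τ' (emb X N x) = emb X N (τ x)

lemma ins_of {X : Type} {N : ℕ} {τ : Equiv.Perm (X ⊕ Fin N × Bool)} {h : X ⊕ Fin N × Bool}
    {τ' : Equiv.Perm ((X ⊕ Fin N × Bool) ⊕ Bool)} (H : IsIns τ h τ') :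
    Ins τ h ((eN X N).permCongr τ') := by
  have hn : ∀ b, (eN X N).symm (nw X N b) = Sum.inr b := fun b => by
    rw [Equiv.symm_apply_eq]; rfl
  have he : ∀ d, (eN X N).symm (emb X N d) = Sum.inl d := fun d => by
    rw [Equiv.symm_apply_eq]; rfl
  refine ⟨?_, ?_, ?_, ?_, ?_⟩
  · rw [Equiv.permCongr_apply, hn, H.a]; rfl
  · rw [Equiv.permCongr_apply, hn, H.b]; rfl
  · rw [Equiv.permCongr_apply, he, H.c]; rfl
  · rw [Equiv.permCongr_apply, he, H.d]; rfl
  · intro x h1 h2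
    rw [Equiv.permCongr_apply, he, H.e x h1 h2]; rfl

lemma pair_conj {A B : Type} (e : A ≃ B) {τ : Equiv.Perm A} (h : IsPair τ) :
    IsPair (e.permCongr τ) := by
  intro x
  constructor
  · simp [Equiv.permCongr_apply, (h (e.symm x)).1]
  · rw [Equiv.permCongr_apply]
    intro hh
    apply (h (e.symm x)).2
    rw [← Equiv.apply_eq_iff_eq e, hh]; simp

lemma orb_conj {A B : Type} (e : A ≃ B) (π : Equiv.Perm A) : orb (e.permCongr π) = orb π := by
  unfold orb
  symm
  apply Nat.card_congr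
  have hz : ∀ (k : ℤ) (a : A), ((e.permCongr π) ^ k) (e a) = e ((π ^ k) a) := by
    intro k a
    have h1 : (e.permCongr π) ^ k = e.permCongr (π ^ k) := by
      have := map_zpow (e.permCongrHom) π k
      exact this.symm
    rw [h1]; simp [Equiv.permCongr_apply]
  refine Quotient.congr e (fun a b => ?_)
  show π.SameCycle a b ↔ (e.permCongr π).SameCycle (e a) (e b)
  constructor
  · rintro ⟨k, hk⟩; exact ⟨k, by rw [hz, hk]⟩
  · rintro ⟨k, hk⟩; exact ⟨k, by rw [hz] at hk; exact e.injective hk⟩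

/-- The kernel edge of `x` is short. -/
def AX {X W : Type} (x : X) (τ : Equiv.Perm (X ⊕ W × Bool)) : Prop := ∃ y, τ (Sum.inl x) = Sum.inl y

/-- One interior vertex. -/
def BX {X W : Type} (x : X) (τ : Equiv.Perm (X ⊕ W × Bool)) : Prop :=
  ∃ y, τ (sW X W (τ (Sum.inl x))) = Sum.inl y

open Classical in
/-- weights -/
noncomputable def fX {X W : Type} (x : X) (τ : Equiv.Perm (X ⊕ W × Bool)) : ℕ :=
  if AX x τ then 2 else if BX x τ then 1 else 0

section step
variable {X : Type} {N : ℕ} {τ : Equiv.Perm (X ⊕ Fin N × Bool)} {h : X ⊕ Fin N × Bool}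
    {τ' : Equiv.Perm (X ⊕ Fin (N + 1) × Bool)}

lemma at_h (hp : IsPair τ) (H : Ins τ h τ') (x : X) (hx : h = Sum.inl x ∨ h = τ (Sum.inl x)) :
    ¬ AX x τ' ∧ (BX x τ' → AX x τ) := by
  rcases hx with hx | hx
  · have h1 : τ' (Sum.inl x) = nw X N false := by
      have := H.c; rw [hx, emb_inl] at this; exact this
    have h2 : τ' (nw X N true) = emb X N (τ (Sum.inl x)) := by
      have := H.b; rwa [hx] at this
    refine ⟨?_, ?_⟩
    · unfold AX; rw [h1]; exact nw_isX _
    · unfold BX AX; rw [h1, sW_nw]; simp only [Bool.not_false]; rw [h2, emb_isX]; exact id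
  · have h0 : τ h = Sum.inl x := by rw [hx, (hp _).1]
    have h1 : τ' (Sum.inl x) = nw X N true := by
      have := H.d; rw [h0, emb_inl] at this; exact this
    have h2 : τ' (nw X N false) = emb X N (τ (Sum.inl x)) := by
      have := H.a; rwa [hx] at this
    refine ⟨?_, ?_⟩
    · unfold AX; rw [h1]; exact nw_isX _
    · unfold BX AX; rw [h1, sW_nw]; simp only [Bool.not_true]; rw [h2, emb_isX]; exact id

lemma not_h (hp : IsPair τ) (H : Ins τ h τ') (x : X) (h1 : h ≠ Sum.inl x) (h2 : h ≠ τ (Sum.inl x)) :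
    (AX x τ' → AX x τ) ∧ (BX x τ' → BX x τ) := by
  have h0 : τ' (Sum.inl x) = emb X N (τ (Sum.inl x)) := by
    have := H.e (Sum.inl x) (Ne.symm h1) (fun hh => h2 (by rw [hh, (hp _).1]))
    rwa [emb_inl] at this
  refine ⟨?_, ?_⟩
  · unfold AX; rw [h0, emb_isX]; exact id
  · unfold BX; rw [h0, sW_emb]
    by_cases h3 : sW X (Fin N) (τ (Sum.inl x)) = h
    · rw [h3, H.c]; intro hh; exact absurd hh (nw_isX _)
    · by_cases h4 : sW X (Fin N) (τ (Sum.inl x)) = τ h
      · rw [h4, H.d]; intro hh; exact absurd hh (nw_isX _)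
      · rw [H.e _ h3 h4, emb_isX]; exact id

open Classical in
lemma f_le (hp : IsPair τ) (H : Ins τ h τ') (x : X) : fX x τ' ≤ fX x τ := by
  unfold fX
  by_cases hx : h = Sum.inl x ∨ h = τ (Sum.inl x)
  · obtain ⟨h1, h2⟩ := at_h hp H x hx
    rw [if_neg h1]
    by_cases h3 : BX x τ'
    · rw [if_pos h3, if_pos (h2 h3)]; norm_num
    · rw [if_neg h3]; exact Nat.zero_le _
  · push Not at hx
    obtain ⟨h1, h2⟩ := not_h hp H x hx.1 hx.2
    by_cases h3 : AX x τ'
    · rw [if_pos h3, if_pos (h1 h3)]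
    · rw [if_neg h3]
      by_cases h4 : BX x τ'
      · rw [if_pos h4]
        by_cases h5 : AX x τ
        · rw [if_pos h5]; norm_num
        · rw [if_neg h5, if_pos (h2 h4)]
      · rw [if_neg h4]; exact Nat.zero_le _

open Classical in
lemma f_at (hp : IsPair τ) (H : Ins τ h τ') (x : X) (hx : h = Sum.inl x ∨ h = τ (Sum.inl x)) :
    fX x τ' ≤ if AX x τ then 1 else 0 := by
  unfold fX
  obtain ⟨h1, h2⟩ := at_h hp H x hx
  rw [if_neg h1]
  by_cases h3 : BX x τ'
  · rw [if_pos h3, if_pos (h2 h3)]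
  · rw [if_neg h3]; exact Nat.zero_le _

/-- closed sets -/
lemma closed_step (hp : IsPair τ) (H : Ins τ h τ') (P : X ⊕ Fin (N + 1) × Bool → Prop)
    (h1 : ∀ d, P d → P (τ' d)) (h2 : ∀ d, P d → P (sW X (Fin (N + 1)) d)) :
    ∀ d, P (emb X N d) → P (emb X N (τ d)) := by
  intro d hd
  by_cases h3 : d = h
  · subst h3
    have h4 := h1 _ hd
    rw [H.c] at h4
    have h5 := h2 _ h4
    rw [sW_nw] at h5
    have h6 := h1 _ h5
    simp only [Bool.not_false] at h6
    rwa [H.b] at h6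
  · by_cases h4 : d = τ h
    · subst h4
      have h4 := h1 _ hd
      rw [H.d] at h4
      have h5 := h2 _ h4
      rw [sW_nw] at h5
      have h6 := h1 _ h5
      simp only [Bool.not_true] at h6
      rw [H.a] at h6
      rwa [(hp h).1]
    · have h5 := h1 _ hd
      rwa [H.e d h3 h4] at h5

lemma noPure_step (hp : IsPair τ) (H : Ins τ h τ') (hN : NoPure τ) : NoPure τ' := by
  intro C hC
  by_contra hcon
  push Not at hcon
  -- pure set
  let P : X ⊕ Fin (N + 1) × Bool → Prop := fun d => ∃ w ∈ C, ∃ b, d = Sum.inr (w, b)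
  have hP1 : ∀ d, P d → P (τ' d) := by
    rintro d ⟨w, hw, b, rfl⟩
    obtain ⟨w', hw', b', hb⟩ := hcon w hw b
    exact ⟨w', hw', b', hb⟩
  have hP2 : ∀ d, P d → P (sW X (Fin (N + 1)) d) := by
    rintro d ⟨w, hw, b, rfl⟩
    exact ⟨w, hw, (Equiv.swap false true) b, rfl⟩
  have hcl := closed_step hp H P hP1 hP2
  have hPe : ∀ d : X ⊕ Fin N × Bool, P (emb X N d) → ∃ i : Fin N, i.castSucc ∈ C ∧ ∃ b, d = Sum.inr (i, b) := by
    rintro (x | ⟨i, b⟩) ⟨w, hw, b', hb⟩
    · rw [emb_inl] at hb; cases hb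
    · rw [emb_inr] at hb
      have h1 : i.castSucc = w := by
        have := Sum.inr_injective hb
        exact (Prod.ext_iff.1 this).1
      exact ⟨i, by rw [h1]; exact hw, b, rfl⟩
  -- an old vertex in C
  have hold : ∃ i : Fin N, i.castSucc ∈ C := by
    obtain ⟨w, hw⟩ := hC
    refine Fin.lastCases (motive := fun w => w ∈ C → ∃ i : Fin N, i.castSucc ∈ C) ?_ (fun j hj => ⟨j, hj⟩) w hw
    intro hl
    have h1 : P (τ' (nw X N false)) := hP1 _ ⟨_, hl, false, rfl⟩
    rw [H.a] at h1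
    obtain ⟨i, hi, -⟩ := hPe _ h1
    exact ⟨i, hi⟩
  obtain ⟨w, hw, b, hwb⟩ := hN {i | i.castSucc ∈ C} hold
  have h1 : P (emb X N (Sum.inr (w, b))) := ⟨w.castSucc, hw, b, rfl⟩
  have h2 := hcl _ h1
  obtain ⟨i, hi, b', hb'⟩ := hPe _ h2
  exact hwb i hi b' hb'

end step

lemma sum_two {H : Type} [Fintype H] [DecidableEq H] (g : H → ℕ) (F a : ℕ) (x0 x1 : H) (hne : x0 ≠ x1)
    (h1 : ∀ h, g h ≤ F) (h2 : g x0 ≤ a) (h3 : g x1 ≤ a) (h4 : 2 * a ≤ F) :
    ∑ h, g h ≤ (Fintype.card H - 1) * F := by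
  have e1 : ∑ h, g h = g x0 + ∑ h ∈ univ.erase x0, g h := (add_sum_erase univ g (mem_univ x0)).symm
  have hx1 : x1 ∈ univ.erase x0 := by simp [hne.symm]
  have e2 : ∑ h ∈ univ.erase x0, g h = g x1 + ∑ h ∈ (univ.erase x0).erase x1, g h :=
    (add_sum_erase _ g hx1).symm
  have e3 : ∑ h ∈ (univ.erase x0).erase x1, g h ≤ #((univ.erase x0).erase x1) * F := by
    have := sum_le_card_nsmul ((univ.erase x0).erase x1) g F (fun h _ => h1 h)
    simpa using this
  have e4 : #((univ.erase x0).erase x1) + 2 = Fintype.card H := by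
    have h5 := card_erase_add_one hx1
    have h6 := card_erase_add_one (mem_univ x0)
    rw [card_univ] at h6
    omega
  have e5 : Fintype.card H - 1 = #((univ.erase x0).erase x1) + 1 := by omega
  rw [e1, e2, e5]
  nlinarith

lemma sumCongr_step (X : Type) (N : ℕ) (σ : Equiv.Perm X) :
    (Equiv.sumCongr σ (Equiv.prodCongr (Equiv.refl (Fin (N + 1))) (Equiv.swap false true)) :
      Equiv.Perm (X ⊕ Fin (N + 1) × Bool)) =
    (eN X N).permCongr (Equiv.sumCongr (Equiv.sumCongr σ (Equiv.prodCongr (Equiv.refl (Fin N))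
      (Equiv.swap false true))) (Equiv.swap false true)) := by
  ext d
  obtain ⟨d', rfl⟩ := (eN X N).surjective d
  rw [Equiv.permCongr_apply, Equiv.symm_apply_apply]
  rcases d' with (x | ⟨i, b⟩) | b
  · rfl
  · rfl
  · rfl

open Classical in
theorem key (hINS : StmtINS) (X : Type) [Fintype X] [DecidableEq X] [Nonempty X]
    (K : Equiv.Perm X → Prop) (hK : ∀ κ, K κ → IsPair κ) (N : ℕ) :
    ∃ S : Finset (Equiv.Perm (X ⊕ Fin N × Bool)),
    #S = Nat.card {κ : Equiv.Perm X // K κ} * ∏ i ∈ range N, (Fintype.card X + 2 * i) ∧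
    (∀ x, ∑ τ ∈ S, fX x τ ≤
      2 * Nat.card {κ : Equiv.Perm X // K κ} * ∏ i ∈ range N, (Fintype.card X + 2 * i - 1)) ∧
    ∀ τ ∈ S, IsPair τ ∧ NoPure τ ∧ ∃ κ, K κ ∧
      (∀ σ : Equiv.Perm X, orb (Equiv.sumCongr σ (Equiv.prodCongr (Equiv.refl (Fin N))
          (Equiv.swap false true)) * τ) = orb (σ * κ)) ∧
      ∀ P : X ⊕ Fin N × Bool → Prop, (∀ h, P h → P (τ h)) → (∀ h, P h → P (sW X (Fin N) h)) →
        ∀ x, P (Sum.inl x) → P (Sum.inl (κ x)) := by
  induction N with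
  | zero =>
    let Φ : Equiv.Perm X → Equiv.Perm (X ⊕ Fin 0 × Bool) := fun κ => Equiv.sumCongr κ (Equiv.refl _)
    have hΦ : Function.Injective Φ := by
      intro a b hab
      ext x
      have h1 : Φ a (Sum.inl x) = Φ b (Sum.inl x) := by rw [hab]
      exact Sum.inl_injective h1
    have hcard : #(univ.filter K) = Nat.card {κ : Equiv.Perm X // K κ} := by
      rw [Nat.card_eq_fintype_card, Fintype.card_subtype]
    refine ⟨(univ.filter K).image Φ, ?_, ?_, ?_⟩
    · rw [card_image_of_injective _ hΦ, hcard]; simp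
    · intro x
      rw [sum_image (fun a _ b _ hab => hΦ hab)]
      have h1 : ∀ κ ∈ univ.filter K, fX x (Φ κ) ≤ 2 := by
        intro κ _
        unfold fX; split_ifs <;> norm_num
      have h2 := sum_le_card_nsmul _ _ _ h1
      rw [hcard] at h2
      simp only [range_zero, prod_empty, mul_one]
      simpa [mul_comm] using h2
    · intro τ hτ
      obtain ⟨κ, hκ, rfl⟩ := mem_image.1 hτ
      have hκ' : K κ := (mem_filter.1 hκ).2
      refine ⟨?_, ?_, κ, hκ', ?_, ?_⟩
      · rintro (x | ⟨i, b⟩)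
        · constructor
          · show Sum.inl (κ (κ x)) = Sum.inl x
            rw [(hK κ hκ' x).1]
          · intro h
            have h1 : (Sum.inl (κ x) : X ⊕ Fin 0 × Bool) = Sum.inl x := h
            exact (hK κ hκ' x).2 (Sum.inl_injective h1)
        · exact i.elim0
      · rintro C ⟨w, hw⟩
        exact w.elim0
      · intro σ
        have e1 : (Equiv.sumCongr σ (Equiv.prodCongr (Equiv.refl (Fin 0)) (Equiv.swap false true)) *
            Φ κ : Equiv.Perm (X ⊕ Fin 0 × Bool)) = (Equiv.sumEmpty X (Fin 0 × Bool)).symm.permCongr (σ * κ) := by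
          ext d
          rcases d with x | ⟨i, b⟩
          · rfl
          · exact i.elim0
        rw [e1, orb_conj]
      · intro P h1 _ x hx
        exact h1 _ hx
  | succ N ih =>
    obtain ⟨S, hS1, hS2, hS3⟩ := ih
    obtain ⟨i1, i2, i3, i4⟩ := hINS (X ⊕ Fin N × Bool)
    choose! ins hins using i1
    let Φ : Equiv.Perm (X ⊕ Fin N × Bool) × (X ⊕ Fin N × Bool) → Equiv.Perm (X ⊕ Fin (N + 1) × Bool) :=
      fun q => (eN X N).permCongr (ins q.1 q.2)
    have hI : ∀ τ ∈ S, ∀ h, Ins τ h (Φ (τ, h)) := fun τ hτ h => ins_of (hins τ h (hS3 τ hτ).1).1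
    have hinj : Set.InjOn Φ (S ×ˢ (univ : Finset (X ⊕ Fin N × Bool)) : Finset _) := by
      rintro ⟨τ₁, h₁⟩ hq₁ ⟨τ₂, h₂⟩ hq₂ hab
      have m1 : τ₁ ∈ S := (mem_product.1 (Finset.mem_coe.1 hq₁)).1
      have m2 : τ₂ ∈ S := (mem_product.1 (Finset.mem_coe.1 hq₂)).1
      have h3 : ins τ₁ h₁ = ins τ₂ h₂ := (eN X N).permCongr.injective hab
      have p1 := (hS3 τ₁ m1).1
      have p2 := (hS3 τ₂ m2).1
      have h4 := i3 τ₁ τ₂ h₁ h₂ (ins τ₁ h₁) p1 p2 (hins τ₁ h₁ p1).1 (by rw [h3]; exact (hins τ₂ h₂ p2).1)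
      exact Prod.ext h4.1 h4.2
    have hcH : Fintype.card (X ⊕ Fin N × Bool) = Fintype.card X + 2 * N := by
      simp [Fintype.card_sum, Fintype.card_prod]; ring
    refine ⟨(S ×ˢ univ).image Φ, ?_, ?_, ?_⟩
    · rw [card_image_of_injOn hinj, card_product, card_univ, hcH, hS1, prod_range_succ]
      ring
    · intro x
      rw [sum_image hinj, sum_product, prod_range_succ]
      have h1 : ∀ τ ∈ S, ∑ h, fX x (Φ (τ, h)) ≤ (Fintype.card X + 2 * N - 1) * fX x τ := by
        intro τ hτ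
        have hp := (hS3 τ hτ).1
        rw [← hcH]
        refine sum_two _ _ (if AX x τ then 1 else 0) (Sum.inl x) (τ (Sum.inl x)) (Ne.symm (hp _).2)
          (fun h => f_le hp (hI τ hτ h) x) (f_at hp (hI τ hτ _) x (Or.inl rfl))
          (f_at hp (hI τ hτ _) x (Or.inr rfl)) ?_
        unfold fX
        split_ifs <;> norm_num
      calc ∑ τ ∈ S, ∑ h, fX x (Φ (τ, h)) ≤ ∑ τ ∈ S, (Fintype.card X + 2 * N - 1) * fX x τ := sum_le_sum h1
        _ = (Fintype.card X + 2 * N - 1) * ∑ τ ∈ S, fX x τ := by rw [mul_sum]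
        _ ≤ (Fintype.card X + 2 * N - 1) * (2 * Nat.card {κ : Equiv.Perm X // K κ} *
            ∏ i ∈ range N, (Fintype.card X + 2 * i - 1)) := Nat.mul_le_mul_left _ (hS2 x)
        _ = _ := by ring
    · intro τ' hτ'
      obtain ⟨⟨τ, h⟩, hq, rfl⟩ := mem_image.1 hτ'
      have hτ : τ ∈ S := (mem_product.1 hq).1
      obtain ⟨hp, hN, κ, hκ, ho, hP⟩ := hS3 τ hτ
      have hI' := hI τ hτ h
      have hi := hins τ h hp
      refine ⟨pair_conj _ hi.2, noPure_step hp hI' hN, κ, hκ, ?_, ?_⟩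
      · intro σ
        rw [← ho σ, ← i4 τ h (ins τ h) _ hp hi.1, sumCongr_step]
        have e1 : (eN X N).permCongr (Equiv.sumCongr (Equiv.sumCongr σ (Equiv.prodCongr (Equiv.refl (Fin N))
            (Equiv.swap false true))) (Equiv.swap false true)) * Φ (τ, h) =
            (eN X N).permCongr ((Equiv.sumCongr (Equiv.sumCongr σ (Equiv.prodCongr (Equiv.refl (Fin N))
            (Equiv.swap false true))) (Equiv.swap false true)) * ins τ h) := by
          ext d
          simp [Φ, Equiv.permCongr_apply]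
        rw [e1, orb_conj]
      · intro P h1 h2 x hx
        have h3 := closed_step hp hI' P h1 h2
        exact hP (fun d => P (emb X N d)) h3 (fun d hd => by
          have := h2 _ hd
          rwa [sW_emb] at this) x hx

/-- The packet. -/
theorem goalSUB (hINS : Pool.Agent.Helper26.AF.StmtINS) : Pool.Agent.Helper26.AF.StmtSUB := by
  classical
  intro X _ _ _ K hK N
  obtain ⟨S, hS1, hS2, hS3⟩ := key hINS X K hK N
  refine ⟨(S : Set _), ?_, ?_, fun τ hτ => hS3 τ (Finset.mem_coe.1 hτ)⟩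
  · rw [← hS1]; simp
  · have e1 : Nat.card {τ : Equiv.Perm (X ⊕ Fin N × Bool) // τ ∈ (S : Set _) ∧ Short τ} =
        #(S.filter Short) := by
      rw [Nat.card_eq_fintype_card, Fintype.card_subtype]
      congr 1
      ext τ
      simp
    rw [e1]
    have h1 : ∀ τ ∈ S.filter Short, 1 ≤ ∑ x, fX x τ := by
      intro τ hτ
      obtain ⟨x, hx⟩ := (mem_filter.1 hτ).2
      have h2 : 1 ≤ fX x τ := by
        unfold fX
        by_cases h3 : AX x τ
        · rw [if_pos h3]; norm_num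
        · rw [if_neg h3, if_pos]
          rcases hx with hx | hx
          · exact absurd hx h3
          · exact hx
      exact le_trans h2 (single_le_sum (f := fun x => fX x τ) (fun _ _ => Nat.zero_le _) (mem_univ x))
    calc #(S.filter Short) = ∑ τ ∈ S.filter Short, 1 := by simp
      _ ≤ ∑ τ ∈ S.filter Short, ∑ x, fX x τ := sum_le_sum h1
      _ ≤ ∑ τ ∈ S, ∑ x, fX x τ := sum_le_sum_of_subset (filter_subset _ _)
      _ = ∑ x, ∑ τ ∈ S, fX x τ := sum_comm
      _ ≤ ∑ x : X, 2 * Nat.card {κ : Equiv.Perm X // K κ} * ∏ i ∈ range N, (Fintype.card X + 2 * i - 1) :=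
          sum_le_sum (fun x _ => hS2 x)
      _ = _ := by
          rw [sum_const, card_univ, smul_eq_mul]; ring

end Pool.Agent.Helper87.AF
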